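import Pool.Agent.L7h3.QX.Stm2

/-!
# Project QX (helper3), part HA2: Hasse's bound for `a₁ = 0` in characteristic two
-/

set_option autoImplicit false
set_option linter.unusedSectionVars false

namespace Pool.Agent.L7h65.QX

open scoped Classical

section HA2

variable {k : Type} [Field k] [Fintype k] [CharP k 2]

/-- the Artin–Schreier map -/
def asm : k →+ k where
  toFun y := y ^ 2 + y
  map_zero' := by ring
  map_add' x y := by
    have h2 : (2 : k) = 0 := CharTwo.two_eq_zero
    linear_combination x * y * h2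

lemma asm_apply (y : k) : asm y = y ^ 2 + y := rfl

lemma asm_ker : Nat.card (asm (k := k)).ker = 2 := by
  have h : (((asm (k := k)).ker : AddSubgroup k) : Set k) = {0, 1} := by
    ext y
    simp only [SetLike.mem_coe, AddMonoidHom.mem_ker, asm_apply, Set.mem_insert_iff,
      Set.mem_singleton_iff]
    constructor
    · intro h
      have h1 : y * (y + 1) = 0 := by linear_combination h
      rcases mul_eq_zero.1 h1 with h2 | h2
      · exact Or.inl h2
      · right
        have h3 : (2 : k) = 0 := CharTwo.two_eq_zero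
        linear_combination h2 - h3
    · rintro (h | h)
      · rw [h]; ring
      · rw [h]
        have h3 : (2 : k) = 0 := CharTwo.two_eq_zero
        linear_combination h3
  have h1 : Nat.card (asm (k := k)).ker = Set.ncard (((asm (k := k)).ker : AddSubgroup k) : Set k) :=
    rfl
  rw [h1, h, Set.ncard_pair zero_ne_one]

lemma asm_index : (asm (k := k)).range.index = 2 := by
  have h1 := AddSubgroup.card_mul_index (asm (k := k)).ker
  have h2 := AddSubgroup.card_mul_index (asm (k := k)).range
  rw [AddSubgroup.index_ker, asm_ker] at h1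
  have h3 : 0 < Nat.card (asm (k := k)).range := Nat.card_pos
  rw [← h1, mul_comm 2] at h2
  exact Nat.eq_of_mul_eq_mul_left h3 h2

/-- the additive character -/
noncomputable def psi (t : k) : ℤ := if t ∈ (asm (k := k)).range then 1 else -1

lemma psi_add (s t : k) : psi (s + t) = psi s * psi t := by
  have h := AddSubgroup.add_mem_iff_of_index_two (asm_index (k := k)) (a := s) (b := t)
  unfold psi
  by_cases hs : s ∈ (asm (k := k)).range <;> by_cases ht : t ∈ (asm (k := k)).range
  · rw [if_pos (h.2 ⟨fun _ => ht, fun _ => hs⟩), if_pos hs, if_pos ht]; rfl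
  · rw [if_neg (fun h' => ht ((h.1 h').1 hs)), if_pos hs, if_neg ht]; rfl
  · rw [if_neg (fun h' => hs ((h.1 h').2 ht)), if_neg hs, if_pos ht]; rfl
  · rw [if_pos (h.2 ⟨fun h' => absurd h' hs, fun h' => absurd h' ht⟩), if_neg hs, if_neg ht]; rfl

lemma psi_or (t : k) : psi t = 1 ∨ psi t = -1 := by
  unfold psi
  split_ifs
  · exact Or.inl rfl
  · exact Or.inr rfl

lemma psi_sq (t : k) : psi (t ^ 2) = psi t := by
  have h : psi (t ^ 2 + t) = 1 := by
    unfold psi
    rw [if_pos ⟨t, rfl⟩]
  rw [psi_add] at h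
  rcases psi_or (t ^ 2) with h1 | h1 <;> rcases psi_or t with h2 | h2 <;> rw [h1, h2] at h ⊢ <;>
    norm_num at h

lemma psi_zero : psi (0 : k) = 1 := by
  unfold psi
  rw [if_pos (zero_mem _)]

lemma psi_exists : ∃ t : k, psi t ≠ 1 := by
  by_contra hc
  push Not at hc
  have h : (asm (k := k)).range = ⊤ := by
    rw [eq_top_iff]
    intro t _
    have h1 := hc t
    unfold psi at h1
    by_contra h2
    rw [if_neg h2] at h1
    norm_num at h1
  have h1 := asm_index (k := k)
  rw [h, AddSubgroup.index_top] at h1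
  omega

/-- the number of solutions of `y² + y = t` -/
lemma card_as (t : k) : ((Finset.univ.filter fun y : k => y ^ 2 + y = t).card : ℤ) = 1 + psi t := by
  have h3 : (2 : k) = 0 := CharTwo.two_eq_zero
  unfold psi
  by_cases h : t ∈ (asm (k := k)).range
  · rw [if_pos h]
    obtain ⟨y₀, hy₀⟩ := h
    rw [asm_apply] at hy₀
    have e : (Finset.univ.filter fun y : k => y ^ 2 + y = t) = {y₀, y₀ + 1} := by
      ext y
      simp only [Finset.mem_filter, Finset.mem_univ, true_and, Finset.mem_insert,
        Finset.mem_singleton]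
      constructor
      · intro hy
        have h1 : (y - y₀) * (y - (y₀ + 1)) = 0 := by
          linear_combination hy - hy₀ + (-y * y₀ + y₀ ^ 2 - y + y₀) * h3
        rcases mul_eq_zero.1 h1 with h2 | h2
        · exact Or.inl (sub_eq_zero.1 h2)
        · exact Or.inr (sub_eq_zero.1 h2)
      · rintro (hy | hy)
        · rw [hy, hy₀]
        · rw [hy]
          linear_combination hy₀ + (y₀ + 1) * h3
    rw [e, Finset.card_pair (by simp)]
    rfl
  · rw [if_neg h]
    have e : (Finset.univ.filter fun y : k => y ^ 2 + y = t) = ∅ := by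
      rw [Finset.filter_eq_empty_iff]
      intro y _ hy
      exact h ⟨y, hy⟩
    rw [e]
    rfl

/-- orthogonality -/
lemma chi_sum {χ : k → ℤ} (hχ : ∀ x y, χ (x + y) = χ x * χ y) (h1 : ∀ x, χ x = 1 ∨ χ x = -1)
    (hn : ∃ a, χ a ≠ 1) : ∑ x, χ x = 0 := by
  obtain ⟨a, ha⟩ := hn
  have ha' : χ a = -1 := (h1 a).resolve_left ha
  have e : ∑ x, χ x = ∑ x, χ (x + a) := (Equiv.sum_comp (Equiv.addRight a) χ).symm
  have e2 : ∑ x, χ (x + a) = - ∑ x, χ x := by
    rw [← Finset.sum_neg_distrib]
    refine Finset.sum_congr rfl fun x _ => ?_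
    rw [hχ, ha']
    ring
  omega

end HA2

theorem t_HA2 : Pool.Agent.L7h3.QX.S_HA2 := by
  intro k _ _ _ a₂ a₃ a₄ a₆ h3
  have h2 : (2 : k) = 0 := CharTwo.two_eq_zero
  set f : k → k := fun x => x ^ 3 + a₂ * x ^ 2 + a₄ * x + a₆ with hf
  set c : k := (a₃ ^ 2)⁻¹ with hc
  have hc0 : c ≠ 0 := inv_ne_zero (pow_ne_zero 2 h3)
  have hc3 : c * a₃ ^ 2 = 1 := inv_mul_cancel₀ (pow_ne_zero 2 h3)
  set S : ℤ := ∑ x : k, psi (c * f x) with hS
  -- the number of solutions
  have hN : (Nat.card {p : k × k // p.2 ^ 2 + a₃ * p.2 = p.1 ^ 3 + a₂ * p.1 ^ 2 + a₄ * p.1 + a₆} : ℤ) =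
      Fintype.card k + S := by
    rw [Nat.card_eq_fintype_card, Fintype.card_subtype, Finset.card_filter, ← Finset.univ_product_univ,
      Finset.sum_product]
    push_cast
    have h4 : ∀ x : k, ∑ y : k, (if y ^ 2 + a₃ * y = x ^ 3 + a₂ * x ^ 2 + a₄ * x + a₆ then (1 : ℤ) else 0) =
        1 + psi (c * f x) := by
      intro x
      rw [← card_as (c * f x), Finset.card_filter]
      push_cast
      rw [← Equiv.sum_comp (Equiv.mulLeft₀ a₃ h3)]
      refine Finset.sum_congr rfl fun y _ => ?_
      have h5 : (Equiv.mulLeft₀ a₃ h3 y) ^ 2 + a₃ * (Equiv.mulLeft₀ a₃ h3 y) =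
          x ^ 3 + a₂ * x ^ 2 + a₄ * x + a₆ ↔ y ^ 2 + y = c * f x := by
        have h7 : Equiv.mulLeft₀ a₃ h3 y = a₃ * y := rfl
        rw [h7, hf]
        constructor
        · intro h
          linear_combination c * h - (y ^ 2 + y) * hc3
        · intro h
          have h6 : a₃ ^ 2 ≠ 0 := pow_ne_zero 2 h3
          linear_combination a₃ ^ 2 * h + (x ^ 3 + a₂ * x ^ 2 + a₄ * x + a₆) * hc3
      by_cases h6 : y ^ 2 + y = c * f x
      · rw [if_pos h6, if_pos (h5.2 h6)]
      · rw [if_neg h6, if_neg (fun h => h6 (h5.1 h))]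
    rw [Finset.sum_congr rfl fun x _ => h4 x, Finset.sum_add_distrib, Finset.sum_const, Finset.card_univ,
      hS]
    simp
  rw [hN, add_sub_cancel_left]
  -- the square
  have hS2 : S ^ 2 = ∑ h : k, psi (c * (h ^ 3 + a₂ * h ^ 2 + a₄ * h)) *
      ∑ x : k, psi (c * (x ^ 2 * h + x * h ^ 2)) := by
    rw [pow_two, hS, Finset.sum_mul_sum]
    have e1 : ∀ x : k, ∑ y : k, psi (c * f x) * psi (c * f y) =
        ∑ h : k, psi (c * (h ^ 3 + a₂ * h ^ 2 + a₄ * h)) * psi (c * (x ^ 2 * h + x * h ^ 2)) := by
      intro x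
      rw [← Equiv.sum_comp (Equiv.addLeft x)]
      refine Finset.sum_congr rfl fun h _ => ?_
      rw [← psi_add, ← psi_add]
      congr 1
      simp only [Equiv.coe_addLeft, hf]
      linear_combination c * (x ^ 3 + a₂ * x ^ 2 + a₄ * x + a₆ + x ^ 2 * h + x * h ^ 2 + a₂ * x * h) * h2
    rw [Finset.sum_congr rfl fun x _ => e1 x, Finset.sum_comm]
    refine Finset.sum_congr rfl fun h _ => ?_
    rw [Finset.mul_sum]
  -- square roots
  have hsq : ∀ t : k, ∃ r : k, r ^ 2 = t := by
    intro t
    have hinj : Function.Injective (fun r : k => r ^ 2) := by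
      intro r s hrs
      have h4 : r ^ 2 = s ^ 2 := hrs
      have h5 : (r - s) ^ 2 = 0 := by linear_combination h4 + (s ^ 2 - r * s) * h2
      exact sub_eq_zero.1 (pow_eq_zero_iff two_ne_zero |>.1 h5)
    exact (Finite.injective_iff_surjective.1 hinj) t
  have hin : ∀ h : k, h ∉ (Finset.univ.filter fun h : k => c * h ^ 4 = h) →
      ∑ x : k, psi (c * (x ^ 2 * h + x * h ^ 2)) = 0 := by
    intro h hh
    apply chi_sum
    · intro x y
      rw [← psi_add]
      congr 1
      linear_combination c * x * y * h * h2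
    · intro x
      exact psi_or _
    · obtain ⟨r, hr⟩ := hsq (c * h)
      have hb : r + c * h ^ 2 ≠ 0 := by
        intro h0
        apply hh
        rw [Finset.mem_filter]
        refine ⟨Finset.mem_univ _, ?_⟩
        have h4 : r = c * h ^ 2 := by linear_combination h0 - c * h ^ 2 * h2
        rw [h4] at hr
        have h5 : c * (c * h ^ 4 - h) = 0 := by linear_combination hr
        exact sub_eq_zero.1 ((mul_eq_zero.1 h5).resolve_left hc0)
      obtain ⟨t, ht⟩ := psi_exists (k := k)
      refine ⟨t / (r + c * h ^ 2), fun h1 => ht ?_⟩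
      rw [← h1]
      set x := t / (r + c * h ^ 2) with hx
      have e1 : psi (c * (x ^ 2 * h + x * h ^ 2)) = psi ((r * x) ^ 2) * psi (c * h ^ 2 * x) := by
        rw [← psi_add]
        congr 1
        linear_combination -x ^ 2 * hr
      rw [e1, psi_sq, ← psi_add]
      congr 1
      rw [hx]
      field_simp
  have hcard : (Finset.univ.filter fun h : k => c * h ^ 4 = h).card ≤ 4 := by
    set P : Polynomial k := Polynomial.C c * Polynomial.X ^ 4 - Polynomial.X with hP
    have hdeg : P.natDegree = 4 := by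
      rw [hP]
      compute_degree!
    have hP0 : P ≠ 0 := by
      intro h0
      rw [h0] at hdeg
      simp at hdeg
    have hsub : (Finset.univ.filter fun h : k => c * h ^ 4 = h) ⊆ P.roots.toFinset := by
      intro h hh
      rw [Multiset.mem_toFinset, Polynomial.mem_roots hP0, Polynomial.IsRoot.def, hP]
      have := (Finset.mem_filter.1 hh).2
      simp [this]
    calc _ ≤ P.roots.toFinset.card := Finset.card_le_card hsub
      _ ≤ Multiset.card P.roots := Multiset.toFinset_card_le _
      _ ≤ P.natDegree := Polynomial.card_roots' _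
      _ = 4 := hdeg
  rw [hS2, ← Finset.sum_filter_add_sum_filter_not Finset.univ (fun h : k => c * h ^ 4 = h)]
  have e0 : ∑ h ∈ Finset.univ.filter (fun h : k => ¬ c * h ^ 4 = h),
      psi (c * (h ^ 3 + a₂ * h ^ 2 + a₄ * h)) * ∑ x : k, psi (c * (x ^ 2 * h + x * h ^ 2)) = 0 := by
    refine Finset.sum_eq_zero fun h hh => ?_
    rw [hin h (fun h' => (Finset.mem_filter.1 hh).2 (Finset.mem_filter.1 h').2), mul_zero]
  rw [e0, add_zero]
  have hb1 : ∀ t : k, |psi t| ≤ 1 := by
    intro t
    rcases psi_or t with h | h <;> rw [h] <;> norm_num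
  calc _ ≤ ∑ h ∈ Finset.univ.filter (fun h : k => c * h ^ 4 = h), (Fintype.card k : ℤ) := by
        refine Finset.sum_le_sum fun h _ => ?_
        refine (le_abs_self _).trans ?_
        rw [abs_mul]
        have h5 : |∑ x : k, psi (c * (x ^ 2 * h + x * h ^ 2))| ≤ (Fintype.card k : ℤ) := by
          refine (Finset.abs_sum_le_sum_abs _ _).trans ?_
          refine (Finset.sum_le_sum fun x _ => hb1 _).trans ?_
          simp
        calc _ ≤ 1 * (Fintype.card k : ℤ) := mul_le_mul (hb1 _) h5 (abs_nonneg _) zero_le_one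
          _ = _ := one_mul _
    _ = ((Finset.univ.filter fun h : k => c * h ^ 4 = h).card : ℤ) * Fintype.card k := by
        rw [Finset.sum_const, nsmul_eq_mul]
    _ ≤ 4 * (Fintype.card k : ℤ) := by
        have h6 : ((Finset.univ.filter fun h : k => c * h ^ 4 = h).card : ℤ) ≤ 4 := by
          exact_mod_cast hcard
        nlinarith [Nat.zero_le (Fintype.card k)]

end Pool.Agent.L7h65.QX
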