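import Pool.Agent.L7h65.QX.Ha2

/-!
# Project QX (helper3), part HS2: the local data of `y² = x³ + δ x` above two
-/

set_option autoImplicit false
set_option linter.unusedSectionVars false

open NumberField IsDedekindDomain

namespace Pool.Agent.L7h65.QX

open scoped Classical
open WithZero
open Pool.Agent.L7h3.QD (HB)
open Pool.Agent.W189.NF (aV eV redMap Ov mem_max_iff finite_res card_res redMap_eq_zero aLoc eLoc
  redMap_surjective)
open Pool.Agent.H921R2.TatePole (nm two_le_nm)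
open Pool.Agent.Y696 (HBd)
open Pool.Agent.Y715.Z
open Pool.Agent.Y698 (AP card_point)

section loc

open WeierstrassCurve IsDiscreteValuationRing

/-- Hasse's bound for the curves in characteristic two with `c₄³ = 1728 Δ` -/
theorem hasse2 {k : Type} [Field k] [Finite k] (h2 : (2 : k) = 0) (W : WeierstrassCurve k)
    (hΔ : W.Δ ≠ 0) (hc : W.c₄ ^ 3 = 1728 * W.Δ) :
    ((Nat.card k : ℤ) + 1 - Nat.card W.toAffine.Point) ^ 2 ≤ 4 * (Nat.card k : ℤ) := by
  have hch : CharP k 2 := CharTwo.of_one_ne_zero_of_two_eq_zero one_ne_zero h2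
  have : Fintype k := Fintype.ofFinite k
  have h1 : W.a₁ = 0 := by
    have h3 : W.c₄ ^ 3 = 0 := by rw [hc]; linear_combination 864 * W.Δ * h2
    have h4 : W.c₄ = 0 := pow_eq_zero_iff (by norm_num) |>.1 h3
    have h5 : W.a₁ ^ 4 = 0 := by
      rw [← h4]
      simp only [WeierstrassCurve.c₄, WeierstrassCurve.b₂, WeierstrassCurve.b₄]
      linear_combination (-(4 * W.a₁ ^ 2 * W.a₂ + 8 * W.a₂ ^ 2 - 24 * W.a₄ - 12 * W.a₁ * W.a₃)) * h2
    exact pow_eq_zero_iff (by norm_num) |>.1 h5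
  have h3 : W.a₃ ≠ 0 := by
    intro h0
    apply hΔ
    simp only [WeierstrassCurve.Δ, WeierstrassCurve.b₂, WeierstrassCurve.b₄, WeierstrassCurve.b₆,
      WeierstrassCurve.b₈, h1, h0]
    linear_combination (-(32 * W.a₂ ^ 3 * W.a₆ - 8 * W.a₂ ^ 2 * W.a₄ ^ 2 + 32 * W.a₄ ^ 3
      + 216 * W.a₆ ^ 2 - 144 * W.a₂ * W.a₄ * W.a₆)) * h2
  rw [card_point W hΔ]
  have h4 := t_HA2 k W.a₂ W.a₃ W.a₄ W.a₆ h3
  have h5 : Nat.card (AP W) =
      Nat.card {p : k × k // p.2 ^ 2 + W.a₃ * p.2 = p.1 ^ 3 + W.a₂ * p.1 ^ 2 + W.a₄ * p.1 + W.a₆} := by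
    refine Nat.card_congr (Equiv.subtypeEquivRight fun p => ?_)
    rw [WeierstrassCurve.Affine.equation_iff, h1, zero_mul, zero_mul, add_zero]
  rw [h5, Nat.card_eq_fintype_card (α := k)]
  push_cast
  have e : ((Fintype.card k : ℤ) + 1 - ((Nat.card {p : k × k // p.2 ^ 2 + W.a₃ * p.2 =
      p.1 ^ 3 + W.a₂ * p.1 ^ 2 + W.a₄ * p.1 + W.a₆} : ℤ) + 1)) ^ 2 =
      ((Nat.card {p : k × k // p.2 ^ 2 + W.a₃ * p.2 =
      p.1 ^ 3 + W.a₂ * p.1 ^ 2 + W.a₄ * p.1 + W.a₆} : ℤ) - Fintype.card k) ^ 2 := by ring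
  rw [e]
  exact h4

variable (R : Type) [CommRing R] [IsDomain R] [IsDiscreteValuationRing R] {L : Type}
  [Field L] [Algebra R L] [IsFractionRing R L]

lemma aLoc_sq [Finite (IsLocalRing.ResidueField R)] (h2 : (2 : IsLocalRing.ResidueField R) = 0)
    (W : WeierstrassCurve L) (hc : W.c₄ ^ 3 = 1728 * W.Δ) (hg : (W.minimal R).HasGoodReduction R) :
    aLoc R W ^ 2 ≤ 4 * (Nat.card (IsLocalRing.ResidueField R) : ℤ) := by
  obtain ⟨C, hC⟩ : ∃ C : VariableChange L, W.minimal R = C • W := ⟨_, rfl⟩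
  have h1 : (W.minimal R).c₄ ^ 3 = 1728 * (W.minimal R).Δ := by
    rw [hC, variableChange_c₄, variableChange_Δ]
    linear_combination (((C.u⁻¹ : Lˣ) : L) ^ 12) * hc
  have h3 : ((W.minimal R).integralModel R).c₄ ^ 3 = 1728 * ((W.minimal R).integralModel R).Δ := by
    have hm : ((W.minimal R).integralModel R).map (algebraMap R L) = W.minimal R :=
      baseChange_integralModel_eq R (W.minimal R)
    apply IsFractionRing.injective R L
    rw [map_pow, map_mul, map_ofNat, ← map_c₄, ← map_Δ, hm]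
    exact h1
  have h4 : ((W.minimal R).reduction R).c₄ ^ 3 = 1728 * ((W.minimal R).reduction R).Δ := by
    unfold WeierstrassCurve.reduction
    rw [map_c₄, map_Δ, ← map_pow, h3, map_mul, map_ofNat]
  have h5 : IsUnit ((W.minimal R).integralModel R).Δ := by
    have h3 := hg.goodReduction
    rw [← integralModel_Δ_eq R (W.minimal R),
      IsDedekindDomain.HeightOneSpectrum.valuation_eq_one_iff_notMem] at h3
    by_contra h4
    exact h3 ((IsLocalRing.mem_maximalIdeal _).2 h4)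
  have h6 : ((W.minimal R).reduction R).Δ ≠ 0 := by
    unfold WeierstrassCurve.reduction
    rw [map_Δ]
    exact (h5.map _).ne_zero
  unfold aLoc
  rw [if_pos hg]
  exact hasse2 h2 _ h6 h4

end loc

theorem t_HS2 : Pool.Agent.L7h3.QX.S_HS2 := by
  intro K _ _ δ hδ v hv
  have hfin := finite_res v
  have hc := card_res (K := K) v
  by_cases hg : (((q4 δ).baseChange (v.adicCompletion K)).minimal
      (v.adicCompletionIntegers K)).HasGoodReduction (v.adicCompletionIntegers K)
  · left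
    right
    have he : eV (q4 δ) v = (nm v : ℤ) := by
      unfold eV eLoc
      rw [if_pos hg, hc]
    have h2 : (2 : IsLocalRing.ResidueField (v.adicCompletionIntegers K)) = 0 := by
      have h := (redMap_eq_zero v (2 : 𝓞 K)).2 hv
      rw [map_ofNat] at h
      exact h
    have hc4 : ((q4 δ).baseChange (v.adicCompletion K)).c₄ ^ 3 =
        1728 * ((q4 δ).baseChange (v.adicCompletion K)).Δ := by
      have h0 : (q4 δ).c₄ ^ 3 = 1728 * (q4 δ).Δ := by
        simp only [WeierstrassCurve.c₄, WeierstrassCurve.b₂, WeierstrassCurve.b₄, WeierstrassCurve.Δ,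
          WeierstrassCurve.b₆, WeierstrassCurve.b₈, q4]
        ring
      unfold WeierstrassCurve.baseChange
      rw [WeierstrassCurve.map_c₄, WeierstrassCurve.map_Δ, ← map_pow, h0, map_mul, map_ofNat]
    have h5 : (aV (q4 δ) v) ^ 2 ≤ 4 * (nm v : ℤ) := by
      have h6 := aLoc_sq (v.adicCompletionIntegers K) h2 _ hc4 hg
      rw [hc] at h6
      exact h6
    set a : ℝ := (aV (q4 δ) v : ℝ) with ha
    set q : ℝ := (nm v : ℝ) with hq
    have h6 : a ^ 2 ≤ 4 * q := by
      rw [ha, hq]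
      exact_mod_cast h5
    have h7 : 0 ≤ q - a ^ 2 / 4 := by linarith
    refine ⟨⟨a / 2, Real.sqrt (q - a ^ 2 / 4)⟩, ?_, ?_, ?_⟩
    · apply Complex.ext
      · simp [ha]
      · simp
    · rw [he, Complex.mul_conj, Complex.normSq_mk]
      have : a / 2 * (a / 2) + Real.sqrt (q - a ^ 2 / 4) * Real.sqrt (q - a ^ 2 / 4) = q := by
        rw [Real.mul_self_sqrt h7]; ring
      rw [this, hq]
      push_cast
      rfl
    · rw [Complex.mul_conj, Complex.normSq_mk]
      have : a / 2 * (a / 2) + Real.sqrt (q - a ^ 2 / 4) * Real.sqrt (q - a ^ 2 / 4) = q := by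
        rw [Real.mul_self_sqrt h7]; ring
      rw [this, hq]
      push_cast
      rfl
  · right
    constructor
    · unfold eV eLoc
      rw [if_neg hg]
    · unfold aV aLoc
      rw [if_neg hg]
      split_ifs <;> simp

end Pool.Agent.L7h65.QX
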