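import Pool.Agent.L7h3.QX.Adx
import Pool.Agent.L7h76.QD.QPT

/-!
# Project QX (helper3), part KXX: the constants at the points of order eight
-/

set_option autoImplicit false
set_option linter.unusedSectionVars false
set_option linter.unusedSimpArgs false

open Filter Complex
open scoped Topology PeriodPair
open H667R3 hiding sq
open Pool.Agent.TH936.CM Pool.Agent.W192.HK

namespace Pool.Agent.L7h65.QX

open Pool.Agent.Y699
open Pool.Agent.L7h3.QX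
open Pool.Agent.L7h76.QD (q_notMem t_QPT)
open H385 (ZI RQ im1 nrm)
open Pool.Agent.H304R3.HK (tc HC LH chi_le)
open Pool.Agent.W164.RC (tc_mul tc_star two2 prim_iff_dvd unit_cases)

variable {L : PeriodPair} {Ω : ℂ}

lemma FE_neg (h : GLat L Ω) (δ : ℝ) (z : ℂ) : FE Ω δ (-z) = -FE Ω δ z := by
  unfold FE
  have e1 : ∀ T b, HP L T b → EG Ω δ (-z + T) = -EG Ω δ (z + T) := by
    intro T b H
    have e2 : EG Ω δ (-z + T) = EG Ω δ (-(z + T)) := by
      apply EG_per h.lat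
      have e : -z + T - -(z + T) = 2 * T := by ring
      rw [e]
      exact H.two
    rw [e2, EG_neg]
  rw [EG_neg, e1 _ _ (hp1 h), e1 _ _ (hp2 h), e1 _ _ (hp3 h)]
  ring

lemma OT_I (h : GLat L Ω) {z : ℂ} (hz : OT L z) : OT L (I * z) where
  nm := by
    intro h'
    apply hz.nm
    have h1 := lat_I h.lat h'
    have e : z = -(I * (I * z)) := by linear_combination z * I_sq
    rw [e]
    exact neg_mem h1
  ex := by
    obtain ⟨D, hD, hDz⟩ := hz.ex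
    refine ⟨D, hD, ?_⟩
    have h1 := lat_I h.lat hDz
    have e : tc D * (I * z) = I * (tc D * z) := by ring
    rwa [e]

lemma four_nd {a : ZI} (ha : IsCoprime a pi1) : ¬ (4 : ZI) ∣ a := by
  intro h
  have h1 : pi1 ∣ (4 : ZI) := ⟨⟨2, -2⟩, by decide⟩
  exact pi1_prime.not_isUnit (ha.isUnit_of_dvd' (h1.trans h) (dvd_refl _))

lemma tau_nm (h : GLat L Ω) {a : ZI} (ha : IsCoprime a pi1) : 2 * (Ω * tc a / 8) ∉ L.lattice := by
  have h1 := q_notMem h a (four_nd ha)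
  have e : 2 * (Ω * tc a / 8) = Ω * tc a / 4 := by ring
  rwa [e]

lemma tau_nm' (h : GLat L Ω) {a : ZI} (ha : IsCoprime a pi1) :
    2 * ((1 + I) * (Ω * tc a / 8)) ∉ L.lattice := by
  have h0 : ¬ (4 : ZI) ∣ pi1 * a := by
    rintro ⟨c, hc⟩
    have h2 : pi1 * a = pi1 * (⟨2, -2⟩ * c) := by
      rw [hc, ← mul_assoc]
      congr 1
    have h3 := mul_left_cancel₀ pi1_prime.ne_zero h2
    have h4 : pi1 ∣ a := by
      rw [h3]
      exact Dvd.dvd.mul_right ⟨⟨0, -2⟩, by decide⟩ _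
    exact pi1_prime.not_isUnit (ha.isUnit_of_dvd' h4 (dvd_refl _))
  have h1 := q_notMem h (pi1 * a) h0
  have e : 2 * ((1 + I) * (Ω * tc a / 8)) = Ω * tc (pi1 * a) / 4 := by
    rw [tc_mul, tc_pi1]
    ring
  rwa [e]

lemma add_nm (h : GLat L Ω) {z : ℂ} (hz : OT L z) {a : ZI} (ha : IsCoprime a pi1) :
    2 * (z + Ω * tc a / 8) ∉ L.lattice := by
  intro h'
  obtain ⟨D, hD, hDz⟩ := hz.ex
  have h1 := lat_mul h.lat D h'
  have h2 := lat_mul h.lat (2 : ZI) hDz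
  have h3 := sub_mem h1 h2
  have e2 : tc (2 : ZI) = 2 := by
    have := tc_int 2
    push_cast at this
    exact this
  have e : tc D * (2 * (z + Ω * tc a / 8)) - tc (2 : ZI) * (tc D * z) = Ω * tc (D * a) / 4 := by
    rw [e2, tc_mul]
    ring
  rw [e] at h3
  exact q_notMem h (D * a) (four_nd (hD.mul_left ha)) h3

lemma sub_nm (h : GLat L Ω) {z : ℂ} (hz : OT L z) {a : ZI} (ha : IsCoprime a pi1) :
    2 * (z - Ω * tc a / 8) ∉ L.lattice := by
  have h1 := add_nm h hz (a := -a) ha.neg_left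
  rw [tc_neg] at h1
  have e : 2 * (z - Ω * tc a / 8) = 2 * (z + Ω * -tc a / 8) := by ring
  rwa [e]

lemma tau_add_nm (h : GLat L Ω) {z : ℂ} (hz : OT L z) {a : ZI} (ha : IsCoprime a pi1) :
    2 * (Ω * tc a / 8 + z) ∉ L.lattice := by
  rw [add_comm]
  exact add_nm h hz ha

lemma tau_sub_nm (h : GLat L Ω) {z : ℂ} (hz : OT L z) {a : ZI} (ha : IsCoprime a pi1) :
    2 * (Ω * tc a / 8 - z) ∉ L.lattice := by
  intro h'
  apply sub_nm h hz ha
  have e : 2 * (z - Ω * tc a / 8) = -(2 * (Ω * tc a / 8 - z)) := by ring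
  rw [e]
  exact neg_mem h'

lemma dup (h : GLat L Ω) {z : ℂ} (h1 : 2 * z ∉ L.lattice) (h2 : 2 * ((1 + I) * z) ∉ L.lattice) :
    s0 L z ^ 2 = ℘[L] (2 * z) := by
  obtain ⟨m1, m2⟩ := h.mul_pi h1
  obtain ⟨m3, m4⟩ := h.mul_pi h2
  have e1 : (1 + I) * ((1 + I) * z) = I * (2 * z) := by linear_combination z * I_sq
  rw [e1, wp_I h.lat] at m3
  have hy := h.eqn (nm_of_two h1)
  have hy0 := wp'_ne L h1
  unfold s0
  rw [div_pow, div_eq_iff (pow_ne_zero 2 hy0), hy]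
  generalize ℘[L] z = a at *
  generalize ℘[L] ((1 + I) * z) = b at *
  generalize ℘[L] (2 * z) = c at *
  linear_combination -(a ^ 2 - 1 + 2 * I * a * b - 4 * a * c) * m1 + 4 * a ^ 2 * m3 +
    4 * a ^ 2 * b ^ 2 * I_sq

lemma s1_sq (h : GLat L Ω) {z : ℂ} (h1 : 2 * z ∉ L.lattice) :
    s1 L (℘[L] (Ω / 2)) z ^ 2 = s0 L z ^ 2 + ℘[L] (Ω / 2) := by
  have hy := h.eqn (nm_of_two h1)
  have hy0 := wp'_ne L h1
  have he := h.e1_sq
  unfold s1 s0
  rw [div_pow, div_pow, div_add' _ _ _ (pow_ne_zero 2 hy0), hy]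
  congr 1
  linear_combination 4 * ℘[L] z ^ 2 * he

lemma s2_sq (h : GLat L Ω) {z : ℂ} (h1 : 2 * z ∉ L.lattice) :
    s2 L (℘[L] (Ω / 2)) z ^ 2 = s0 L z ^ 2 - ℘[L] (Ω / 2) := by
  have hy := h.eqn (nm_of_two h1)
  have hy0 := wp'_ne L h1
  have he := h.e1_sq
  unfold s2 s0
  rw [div_pow, div_pow, div_sub' (pow_ne_zero 2 hy0), hy]
  congr 1
  linear_combination 4 * ℘[L] z ^ 2 * he

lemma s0_I (h : GLat L Ω) (z : ℂ) : s0 L (I * z) = -I * s0 L z := by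
  unfold s0
  rw [wp_I h.lat, wp'_I h.lat, mul_comm I, ← div_div, div_eq_mul_inv _ I, Complex.inv_I]
  ring

lemma s1_I (h : GLat L Ω) (e z : ℂ) : s1 L e (I * z) = -I * s2 L e z := by
  unfold s1 s2
  rw [wp_I h.lat, wp'_I h.lat, mul_comm I, ← div_div, div_eq_mul_inv _ I, Complex.inv_I]
  ring

lemma s2_I (h : GLat L Ω) (e z : ℂ) : s2 L e (I * z) = -I * s1 L e z := by
  unfold s1 s2
  rw [wp_I h.lat, wp'_I h.lat, mul_comm I, ← div_div, div_eq_mul_inv _ I, Complex.inv_I]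
  ring

/-! ### Algebra -/

lemma alg1 {p r x e A ε : ℂ} (hr : p * r = -1) (hs : p + r = 2 * e) (hε : ε ^ 2 = -1)
    (h1 : p - x ≠ 0) (h2 : r - x ≠ 0) :
    A / (p - x) + (-(ε * r * A)) / (r - x) =
      -((A + -(ε * r * A)) * ((x - ε) / (x ^ 2 - 2 * e * x - 1))) := by
  have hq : x ^ 2 - 2 * e * x - 1 = (p - x) * (r - x) := by
    linear_combination -hr + x * hs
  rw [hq]
  field_simp
  linear_combination (-ε * A) * hr + r * A * hε

lemma alg2 {p r x e A ε : ℂ} (hr : p * r = -1) (hs : p + r = 2 * e) (hε : ε ^ 2 = -1)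
    (h1 : p + x ≠ 0) (h2 : r + x ≠ 0) :
    A / (p + x) + (-(ε * r * A)) / (r + x) =
      (A + -(ε * r * A)) * ((x + ε) / (x ^ 2 + 2 * e * x - 1)) := by
  have hq : x ^ 2 + 2 * e * x - 1 = (p + x) * (r + x) := by
    linear_combination -hr - x * hs
  rw [hq]
  field_simp
  linear_combination (-ε * A) * hr + r * A * hε

/-! ### Limits -/

lemma lim_o (h : GLat L Ω) {z t : ℂ} (hz : 2 * z ∉ L.lattice) (ht : 2 * t ∉ L.lattice)
    (ha : 2 * (z + t) ∉ L.lattice) (hb : 2 * (z - t) ∉ L.lattice) :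
    s0 L t ^ 2 - s0 L z ^ 2 ≠ 0 ∧
    Tendsto (fun δ : ℝ => FE Ω δ (t + z) - FE Ω δ (t + -z)) (𝓝[>] 0)
      (𝓝 (-4 * s1 L (℘[L] (Ω / 2)) z * (s0 L t * s2 L (℘[L] (Ω / 2)) t) / (s0 L t ^ 2 - s0 L z ^ 2))) := by
  obtain ⟨h1, h2⟩ := t_ADX L Ω h z t hz ht ha hb
  refine ⟨h1, h2.congr fun δ => ?_⟩
  have e : z - t = -(t + -z) := by ring
  rw [e, FE_neg h, add_comm z t]
  ring

lemma lim_e (h : GLat L Ω) {z t : ℂ} (hz : 2 * z ∉ L.lattice) (ht : 2 * t ∉ L.lattice)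
    (ha : 2 * (t + z) ∉ L.lattice) (hb : 2 * (t - z) ∉ L.lattice) :
    s0 L z ^ 2 - s0 L t ^ 2 ≠ 0 ∧
    Tendsto (fun δ : ℝ => FE Ω δ (t + z) + FE Ω δ (t + -z)) (𝓝[>] 0)
      (𝓝 (-4 * s1 L (℘[L] (Ω / 2)) t * (s0 L z * s2 L (℘[L] (Ω / 2)) z) / (s0 L z ^ 2 - s0 L t ^ 2))) := by
  obtain ⟨h1, h2⟩ := t_ADX L Ω h t z ht hz ha hb
  refine ⟨h1, h2.congr fun δ => ?_⟩
  rw [sub_eq_add_neg]

lemma tau1 (Ω : ℂ) : Ω * tc 1 / 8 = Ω / 8 := by rw [tc_one, mul_one]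

lemma tau2 (Ω : ℂ) : Ω * tc ⟨3, 2⟩ / 8 = (3 + 2 * I) * (Ω / 8) := by
  unfold tc
  push_cast
  ring

lemma cop1 : IsCoprime (1 : ZI) pi1 := isCoprime_one_left

lemma cop2 : IsCoprime (⟨3, 2⟩ : ZI) pi1 := ⟨1, -2, by decide⟩

lemma odd_lim (h : GLat L Ω) (k : ℕ) {z : ℂ} (hz : OT L z) :
    (s0 L (Ω / 8) ^ 2 - s0 L z ^ 2 ≠ 0 ∧ s0 L ((3 + 2 * I) * (Ω / 8)) ^ 2 - s0 L z ^ 2 ≠ 0) ∧
    Tendsto (fun δ : ℝ => GE Ω k δ z - GE Ω k δ (-z)) (𝓝[>] 0)
      (𝓝 (-4 * s1 L (℘[L] (Ω / 2)) z * (s0 L (Ω / 8) * s2 L (℘[L] (Ω / 2)) (Ω / 8) /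
          (s0 L (Ω / 8) ^ 2 - s0 L z ^ 2) +
        I ^ (3 * k) * (s0 L ((3 + 2 * I) * (Ω / 8)) * s2 L (℘[L] (Ω / 2)) ((3 + 2 * I) * (Ω / 8))) /
          (s0 L ((3 + 2 * I) * (Ω / 8)) ^ 2 - s0 L z ^ 2)))) := by
  obtain ⟨a1, a2⟩ := lim_o h (hz.two h) (tau_nm h cop1) (add_nm h hz cop1) (sub_nm h hz cop1)
  obtain ⟨b1, b2⟩ := lim_o h (hz.two h) (tau_nm h cop2) (add_nm h hz cop2) (sub_nm h hz cop2)
  rw [tau1] at a1 a2
  rw [tau2] at b1 b2
  refine ⟨⟨a1, b1⟩, ?_⟩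
  have l := a2.add (b2.const_mul (I ^ (3 * k)))
  have hv : ∀ A B C D E : ℂ, -4 * A * B / C + E * (-4 * A * D / C) = -4 * A * (B / C + E * D / C) := by
    intro A B C D E
    ring
  have e1 : -4 * s1 L (℘[L] (Ω / 2)) z * (s0 L (Ω / 8) * s2 L (℘[L] (Ω / 2)) (Ω / 8)) /
          (s0 L (Ω / 8) ^ 2 - s0 L z ^ 2) +
        I ^ (3 * k) * (-4 * s1 L (℘[L] (Ω / 2)) z * (s0 L ((3 + 2 * I) * (Ω / 8)) *
          s2 L (℘[L] (Ω / 2)) ((3 + 2 * I) * (Ω / 8))) /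
          (s0 L ((3 + 2 * I) * (Ω / 8)) ^ 2 - s0 L z ^ 2)) =
      -4 * s1 L (℘[L] (Ω / 2)) z * (s0 L (Ω / 8) * s2 L (℘[L] (Ω / 2)) (Ω / 8) /
          (s0 L (Ω / 8) ^ 2 - s0 L z ^ 2) +
        I ^ (3 * k) * (s0 L ((3 + 2 * I) * (Ω / 8)) * s2 L (℘[L] (Ω / 2)) ((3 + 2 * I) * (Ω / 8))) /
          (s0 L ((3 + 2 * I) * (Ω / 8)) ^ 2 - s0 L z ^ 2)) := by ring
  rw [e1] at l
  refine l.congr fun δ => ?_
  unfold GE
  ring

lemma even_lim (h : GLat L Ω) (k : ℕ) {z : ℂ} (hz : OT L z) :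
    Tendsto (fun δ : ℝ => GE Ω k δ z + GE Ω k δ (-z)) (𝓝[>] 0)
      (𝓝 (-4 * (s0 L z * s2 L (℘[L] (Ω / 2)) z) * (s1 L (℘[L] (Ω / 2)) (Ω / 8) /
          (s0 L z ^ 2 - s0 L (Ω / 8) ^ 2) +
        I ^ (3 * k) * s1 L (℘[L] (Ω / 2)) ((3 + 2 * I) * (Ω / 8)) /
          (s0 L z ^ 2 - s0 L ((3 + 2 * I) * (Ω / 8)) ^ 2)))) := by
  obtain ⟨a1, a2⟩ := lim_e h (hz.two h) (tau_nm h cop1) (tau_add_nm h hz cop1) (tau_sub_nm h hz cop1)
  obtain ⟨b1, b2⟩ := lim_e h (hz.two h) (tau_nm h cop2) (tau_add_nm h hz cop2) (tau_sub_nm h hz cop2)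
  rw [tau1] at a1 a2
  rw [tau2] at b1 b2
  have l := a2.add (b2.const_mul (I ^ (3 * k)))
  have e1 : -4 * s1 L (℘[L] (Ω / 2)) (Ω / 8) * (s0 L z * s2 L (℘[L] (Ω / 2)) z) /
          (s0 L z ^ 2 - s0 L (Ω / 8) ^ 2) +
        I ^ (3 * k) * (-4 * s1 L (℘[L] (Ω / 2)) ((3 + 2 * I) * (Ω / 8)) * (s0 L z *
          s2 L (℘[L] (Ω / 2)) z) / (s0 L z ^ 2 - s0 L ((3 + 2 * I) * (Ω / 8)) ^ 2)) =
      -4 * (s0 L z * s2 L (℘[L] (Ω / 2)) z) * (s1 L (℘[L] (Ω / 2)) (Ω / 8) /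
          (s0 L z ^ 2 - s0 L (Ω / 8) ^ 2) +
        I ^ (3 * k) * s1 L (℘[L] (Ω / 2)) ((3 + 2 * I) * (Ω / 8)) /
          (s0 L z ^ 2 - s0 L ((3 + 2 * I) * (Ω / 8)) ^ 2)) := by ring
  rw [e1] at l
  refine l.congr fun δ => ?_
  unfold GE
  ring

/-- **S_KXX** -/
theorem t_KXX : S_KXX := by
  intro L Ω h w hw k hk
  obtain ⟨κ, hκ⟩ := IsAlgClosed.exists_pow_nat_eq (2 : ℂ) (n := 2) (by norm_num)
  have hκ0 : κ ≠ 0 := by
    rintro rfl
    norm_num at hκ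
  obtain ⟨q1, q2, q3, -⟩ := t_QPT L Ω h
  have he := h.e1_sq
  -- the values at the points of order eight
  have p1 : s0 L (Ω / 8) ^ 2 = ℘[L] (Ω / 4) := by
    have h1 := tau_nm h cop1
    have h2 := tau_nm' h cop1
    rw [tau1] at h1 h2
    rw [dup h h1 h2]
    congr 1
    ring
  have p2 : s0 L ((3 + 2 * I) * (Ω / 8)) ^ 2 = ℘[L] ((3 + 2 * I) * (Ω / 4)) := by
    have h1 := tau_nm h cop2
    have h2 := tau_nm' h cop2
    rw [tau2] at h1 h2
    rw [dup h h1 h2]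
    congr 1
    ring
  have n1 : 2 * (Ω / 8) ∉ L.lattice := by
    have := tau_nm h cop1
    rwa [tau1] at this
  have n2 : 2 * ((3 + 2 * I) * (Ω / 8)) ∉ L.lattice := by
    have := tau_nm h cop2
    rwa [tau2] at this
  have u1 := s1_sq h n1
  have u2 := s1_sq h n2
  have v1 := s2_sq h n1
  have v2 := s2_sq h n2
  have hr : ℘[L] (Ω / 4) * ℘[L] ((3 + 2 * I) * (Ω / 4)) = -1 := by
    rw [q3]
    field_simp
  have hs : ℘[L] (Ω / 4) + ℘[L] ((3 + 2 * I) * (Ω / 4)) = 2 * ℘[L] (Ω / 2) := by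
    rw [q3]
    field_simp
    linear_combination q2
  have hI : (I ^ (3 * k)) ^ 2 = -1 := by
    obtain ⟨m, hm⟩ : ∃ m, k = 2 * m + 1 := ⟨k / 2, by omega⟩
    rw [hm, ← pow_mul]
    have e : 3 * (2 * m + 1) * 2 = 4 * (3 * m + 1) + 2 := by ring
    rw [e, pow_add, pow_mul, I_pow_four, one_pow, I_sq, one_mul]
  have hO := @odd_lim L Ω h k
  have hE := @even_lim L Ω h k
  have hF1 := t_FEX L Ω h _ n1
  have hF2 := t_FEX L Ω h _ n2
  rw [p1] at u1 v1 hO hE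
  rw [p2] at u2 v2 hO hE
  generalize ℘[L] (Ω / 4) = p at *
  generalize ℘[L] ((3 + 2 * I) * (Ω / 4)) = r at *
  obtain ⟨e, hee⟩ : ∃ e, ℘[L] (Ω / 2) = e := ⟨_, rfl⟩
  rw [hee] at he hs hO hE hF1 hF2 u1 u2 v1 v2 q2
  have hr0 : r ≠ 0 := by
    rintro rfl
    rw [mul_zero] at hr
    norm_num at hr
  have hr2 : r ^ 2 = 2 * e * r + 1 := by linear_combination r * hs - hr
  -- the common argument
  have key : ∀ A B : ℂ, A ≠ 0 → B ^ 2 = -(A ^ 2 * r ^ 2) → ∃ ε : ℂ, ε ^ 2 = -1 ∧ B = -(ε * r * A) ∧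
      A + B ≠ 0 := by
    intro A B hA hB
    have h1 : (-(B / (A * r))) ^ 2 = -1 := by
      rw [neg_sq, div_pow, hB]
      field_simp
    have h2 : B = -(-(B / (A * r)) * r * A) := by
      field_simp
    refine ⟨-(B / (A * r)), h1, h2, ?_⟩
    intro h0
    have h3 : B = -A := by linear_combination h0
    rw [h3] at hB
    have h4 : A ^ 2 * (r ^ 2 + 1) = 0 := by linear_combination hB
    have h5 := (mul_eq_zero.1 h4).resolve_left (pow_ne_zero 2 hA)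
    have h6 : e * r = -1 := by linear_combination h5 / 2 - hr2 / 2
    have h7 : r ^ 2 = 1 := by linear_combination (e * r - 1) * h6 - r ^ 2 * he
    rw [h7] at h5
    norm_num at h5
  by_cases hwo : w % 2 = 1
  · -- `w` odd
    set A := s0 L (Ω / 8) * s2 L e (Ω / 8) with hA
    set B := I ^ (3 * k) * (s0 L ((3 + 2 * I) * (Ω / 8)) * s2 L e ((3 + 2 * I) * (Ω / 8))) with hB
    have hA2 : A ^ 2 = p * (p - e) := by
      rw [hA, mul_pow, p1, v1]
    have hB2 : B ^ 2 = -(r * (r - e)) := by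
      rw [hB, mul_pow, mul_pow, hI, p2, v2]
      ring
    have hA0 : A ≠ 0 := by
      intro h0
      rw [h0] at hA2
      have h1 : p * (p - e) = 0 := by rw [← hA2]; ring
      rcases mul_eq_zero.1 h1 with h2 | h2
      · exact q1 h2
      · have h3 : p = e := sub_eq_zero.1 h2
        have h4 : r = e := by linear_combination hs - h3
        rw [h3, h4, ← pow_two, he] at hr
        norm_num at hr
    obtain ⟨ε, e1, e2, e3⟩ := key A B hA0 (by
      rw [hA2, hB2]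
      linear_combination (p * r - 1 - e * r) * hr - hr2)
    refine ⟨(A + B) / κ, κ, ε, div_ne_zero e3 hκ0, hκ, e1, ?_, fun h0 => by omega⟩
    intro z hz
    obtain ⟨⟨c1, c2⟩, l1⟩ := hO hz
    obtain ⟨⟨d1, d2⟩, l2⟩ := hO (OT_I h hz)
    have hx : s0 L (I * z) ^ 2 = -(s0 L z ^ 2) := by
      rw [s0_I h]
      linear_combination (s0 L z ^ 2) * I_sq
    rw [hx, sub_neg_eq_add] at d1 d2 l2
    rw [sub_neg_eq_add] at l2
    have g1 := alg1 (A := A) hr hs e1 c1 c2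
    have g2 := alg2 (A := A) hr hs e1 d1 d2
    rw [← e2] at g1 g2
    rw [g1] at l1
    rw [g2, s1_I h] at l2
    have l := (l1.add (l2.const_mul (I ^ w))).const_mul (1 / 4)
    have hw2 : I ^ (2 * w) = -1 := by
      obtain ⟨m, hm⟩ : ∃ m, w = 2 * m + 1 := ⟨w / 2, by omega⟩
      rw [hm]
      have e : 2 * (2 * m + 1) = 4 * m + 2 := by ring
      rw [e, pow_add, pow_mul, I_pow_four, one_pow, I_sq, one_mul]
    have hw3 : I ^ (3 * w) = -I ^ w := by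
      have e : 3 * w = 2 * w + w := by ring
      rw [e, pow_add, hw2]
      ring
    have hsg : I ^ w * I = sgw w := by
      have h3 : w = 1 ∨ w = 3 := by omega
      unfold sgw
      rcases h3 with h3 | h3
      · rw [h3, if_neg (by norm_num)]
        linear_combination I_sq
      · rw [h3, if_pos (by norm_num)]
        linear_combination (I ^ 2 - 1) * I_sq
    have hval : 1 / 4 * (-4 * s1 L e z * -((A + B) * ((s0 L z ^ 2 - ε) /
          ((s0 L z ^ 2) ^ 2 - 2 * e * s0 L z ^ 2 - 1))) +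
        I ^ w * (-4 * (-I * s2 L e z) * ((A + B) * ((s0 L z ^ 2 + ε) /
          ((s0 L z ^ 2) ^ 2 + 2 * e * s0 L z ^ 2 - 1))))) =
        (A + B) / κ * gX L e κ ε w z := by
      unfold gX
      rw [if_pos hwo, ← hsg]
      have e4 : s0 L z ^ 4 = (s0 L z ^ 2) ^ 2 := by ring
      rw [e4, ← mul_assoc ((A + B) / κ), div_mul_cancel₀ _ hκ0]
      ring
    rw [hval] at l
    rw [hee]
    refine l.congr fun δ => ?_
    rw [hw2, hw3]
    ring
  · -- `w` even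
    set A := s1 L e (Ω / 8) with hA
    set B := I ^ (3 * k) * s1 L e ((3 + 2 * I) * (Ω / 8)) with hB
    have hA2 : A ^ 2 = p + e := by
      rw [hA, u1]
    have hB2 : B ^ 2 = -(r + e) := by
      rw [hB, mul_pow, hI, u2]
      ring
    have hA0 : A ≠ 0 := by
      intro h0
      rw [h0] at hA2
      have h3 : p = -e := by linear_combination -hA2
      have h4 : r = 3 * e := by linear_combination hs - h3
      rw [h3, h4] at hr
      have h5 : (-3 : ℂ) * e ^ 2 = -1 := by linear_combination hr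
      rw [he] at h5
      norm_num at h5
    obtain ⟨ε, e1, e2, e3⟩ := key A B hA0 (by
      rw [hA2, hB2]
      linear_combination r * hr + e * hr2 + 2 * r * he)
    refine ⟨-(A + B) / κ, κ, ε, div_ne_zero (neg_ne_zero.2 e3) hκ0, hκ, e1, ?_, fun h0 => ?_⟩
    · intro z hz
      have l1 := hE hz
      have l2 := hE (OT_I h hz)
      obtain ⟨⟨c1, c2⟩, -⟩ := hO hz
      obtain ⟨⟨d1, d2⟩, -⟩ := hO (OT_I h hz)
      have hx : s0 L (I * z) ^ 2 = -(s0 L z ^ 2) := by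
        rw [s0_I h]
        linear_combination (s0 L z ^ 2) * I_sq
      rw [hx, sub_neg_eq_add] at d1 d2
      rw [hx] at l2
      have g1 := alg1 (A := A) hr hs e1 c1 c2
      have g2 := alg2 (A := A) hr hs e1 d1 d2
      rw [← e2] at g1 g2
      have g1' : A / (s0 L z ^ 2 - p) + B / (s0 L z ^ 2 - r) =
          (A + B) * ((s0 L z ^ 2 - ε) / ((s0 L z ^ 2) ^ 2 - 2 * e * s0 L z ^ 2 - 1)) := by
        rw [← neg_sub p, ← neg_sub r, div_neg, div_neg]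
        linear_combination -g1
      have g2' : A / (-(s0 L z ^ 2) - p) + B / (-(s0 L z ^ 2) - r) =
          -((A + B) * ((s0 L z ^ 2 + ε) / ((s0 L z ^ 2) ^ 2 + 2 * e * s0 L z ^ 2 - 1))) := by
        have e5 : -(s0 L z ^ 2) - p = -(p + s0 L z ^ 2) := by ring
        have e6 : -(s0 L z ^ 2) - r = -(r + s0 L z ^ 2) := by ring
        rw [e5, e6, div_neg, div_neg]
        linear_combination -g2
      rw [g1'] at l1
      rw [g2', s0_I h, s2_I h] at l2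
      have l := (l1.add (l2.const_mul (I ^ w))).const_mul (1 / 4)
      have hw2 : I ^ (2 * w) = 1 := by
        obtain ⟨m, hm⟩ : ∃ m, w = 2 * m := ⟨w / 2, by omega⟩
        rw [hm]
        have e : 2 * (2 * m) = 4 * m := by ring
        rw [e, pow_mul, I_pow_four, one_pow]
      have hw3 : I ^ (3 * w) = I ^ w := by
        have e : 3 * w = 2 * w + w := by ring
        rw [e, pow_add, hw2]
        ring
      have hsg : I ^ w = sgw w := by
        have h3 : w = 0 ∨ w = 2 := by omega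
        unfold sgw
        rcases h3 with h3 | h3
        · rw [h3, if_pos (by norm_num), pow_zero]
        · rw [h3, if_neg (by norm_num), I_sq]
      have hval : 1 / 4 * (-4 * (s0 L z * s2 L e z) * ((A + B) * ((s0 L z ^ 2 - ε) /
            ((s0 L z ^ 2) ^ 2 - 2 * e * s0 L z ^ 2 - 1))) +
          I ^ w * (-4 * (-I * s0 L z * (-I * s1 L e z)) * -((A + B) * ((s0 L z ^ 2 + ε) /
            ((s0 L z ^ 2) ^ 2 + 2 * e * s0 L z ^ 2 - 1))))) =
          -(A + B) / κ * gX L e κ ε w z := by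
        unfold gX
        rw [if_neg hwo, ← hsg]
        have e4 : s0 L z ^ 4 = (s0 L z ^ 2) ^ 2 := by ring
        rw [e4, mul_assoc κ, ← mul_assoc (-(A + B) / κ), div_mul_cancel₀ _ hκ0]
        linear_combination (I ^ w * s0 L z * s1 L e z * ((A + B) * ((s0 L z ^ 2 + ε) /
            ((s0 L z ^ 2) ^ 2 + 2 * e * s0 L z ^ 2 - 1)))) * I_sq
      rw [hval] at l
      rw [hee]
      refine l.congr fun δ => ?_
      rw [hw2, hw3]
      ring
    · have l := hF1.add (hF2.const_mul (I ^ (3 * k)))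
      have hval : -2 * s1 L e (Ω / 8) + I ^ (3 * k) * (-2 * s1 L e ((3 + 2 * I) * (Ω / 8))) =
          2 * (-(A + B) / κ) * κ := by
        rw [mul_assoc, div_mul_cancel₀ _ hκ0, hA, hB]
        ring
      rw [hval] at l
      refine l.congr fun δ => ?_
      unfold GE
      rw [add_zero, add_zero]

end Pool.Agent.L7h65.QX
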