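import Pool.Agent.L7h3.QX.Stm
import Pool.Agent.L7h3.MR.Ar

/-!
# Project QX (helper3), part SQX: two-descent on `y² = x³ + i^k (∏ π_i) T² x`, `k` odd
-/

set_option autoImplicit false
set_option linter.unusedSectionVars false
set_option linter.unusedSimpArgs false
set_option linter.unusedVariables false

namespace Pool.Agent.L7h65.QX

open Pool.Agent.Y699
open Pool.Agent.L7h3.MQ (lead_sq sq_pow)
open Pool.Agent.L7h3.MR (aniso)
open H385 (ZI RQ im1 nrm)
open Pool.Agent.W164.RC (two2 prim_iff_dvd unit_norm unit_cases)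
open Pool.Agent.H304R2.EC.A1 (prim prim_mul prim_cancel prim_one prim_norm_odd prim_star eq_one_of_prim
  norm_def' re_mul' im_mul' eq_of_dvd prim_ne_zero exists_prim)

lemma im1_unit : IsUnit (im1 : ZI) :=
  ⟨⟨im1, -im1, by decide, by decide⟩, rfl⟩

section descent

variable {F : Type} [Field F] [Algebra ZI F] [IsFractionRing ZI F]

variable {ι : Type} [DecidableEq ι] {pr : ι → ZI}

/-- integral form of a point on `y² = x³ + B x`, `B = P T²` with `P` squarefree -/
theorem decompX (hp : PF pr) (V : Finset ι) (k : ℕ) {T : ZI} (hT0 : T ≠ 0)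
    (hT : ∀ ρ : ZI, Prime ρ → ρ ∣ T → ρ ∣ DD pr V ∨ ∀ x : ZI, ¬ ρ ∣ x ^ 2 - im1 ^ k * DD pr V)
    {x y : F} (hy : y ≠ 0)
    (hxy : y ^ 2 = x ^ 3 + algebraMap ZI F (im1 ^ k * (DD pr V * T ^ 2)) * x) :
    ∃ (u : ZI) (S : Finset ι) (f b Y : ZI), u.norm = 1 ∧ S ⊆ V ∧ IsCoprime f b ∧ f ≠ 0 ∧ b ≠ 0 ∧
      x = algebraMap ZI F (u * DD pr S) * (algebraMap ZI F f / algebraMap ZI F b) ^ 2 ∧
      Y ^ 2 = u * (u ^ 2 * DD pr S * f ^ 4 + im1 ^ k * DD pr (V \ S) * T ^ 2 * b ^ 4) := by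
  classical
  set B : ZI := im1 ^ k * (DD pr V * T ^ 2) with hB
  have hx : x ≠ 0 := by
    rintro rfl
    apply hy
    have : y ^ 2 = 0 := by rw [hxy]; ring
    exact pow_eq_zero_iff (by norm_num) |>.1 this
  obtain ⟨a, m, hm, hxa⟩ := IsFractionRing.div_surjective (A := ZI) x
  have hm0 : m ≠ 0 := nonZeroDivisors.ne_zero hm
  have ha0 : a ≠ 0 := by
    rintro rfl
    apply hx
    rw [← hxa, map_zero, zero_div]
  have hc0 : a * m ≠ 0 := mul_ne_zero ha0 hm0
  obtain ⟨d, h, hdh, hd⟩ := sqf_decomp _ (a * m) hc0 le_rfl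
  have hh0 : h ≠ 0 := by
    rintro rfl
    apply hc0
    rw [hdh]; ring
  have hd0 : d ≠ 0 := hd.ne_zero
  obtain ⟨f, b', hfb, hfb'⟩ := IsFractionRing.exists_reduced_fraction (A := ZI)
    (algebraMap ZI F h / algebraMap ZI F m)
  set b : ZI := (b' : ZI) with hb
  have hb0 : b ≠ 0 := nonZeroDivisors.ne_zero b'.2
  have hw : algebraMap ZI F h / algebraMap ZI F m = algebraMap ZI F f / algebraMap ZI F b := by
    rw [← hfb', IsFractionRing.mk'_eq_div]
  have hcop : IsCoprime f b := hfb.isCoprime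
  have hAm := A_ne (F := F) hm0
  have hAb := A_ne (F := F) hb0
  have hAh := A_ne (F := F) hh0
  have hf0 : f ≠ 0 := by
    rintro rfl
    rw [map_zero, zero_div] at hw
    exact (div_ne_zero hAh hAm) hw
  have hAf := A_ne (F := F) hf0
  have hxd : x = algebraMap ZI F d * (algebraMap ZI F f / algebraMap ZI F b) ^ 2 := by
    rw [← hw, ← hxa]
    have h1 := congrArg (algebraMap ZI F) hdh
    rw [map_mul, map_mul, map_pow] at h1
    field_simp
    linear_combination h1
  -- the integral equation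
  obtain ⟨Y, hY⟩ : ∃ Y : ZI, Y ^ 2 = d * (d ^ 2 * f ^ 4 + B * b ^ 4) := by
    have h1 : (y * (algebraMap ZI F b) ^ 3 / algebraMap ZI F f) ^ 2 =
        algebraMap ZI F (d * (d ^ 2 * f ^ 4 + B * b ^ 4)) := by
      rw [div_pow, mul_pow, hxy, hxd]
      simp only [map_mul, map_add, map_pow]
      field_simp
    obtain ⟨Y, hY⟩ := sq_int h1
    refine ⟨Y, ?_⟩
    apply A_inj (F := F)
    rw [map_pow, hY, h1]
  have hprime : ∀ ρ : ZI, Prime ρ → ρ ∣ d → ρ ∣ B := by
    intro ρ hρ hρd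
    by_contra hρD
    obtain ⟨d', hd'⟩ := hρd
    have hnd : ¬ ρ ∣ d' := by
      rintro ⟨e, he⟩
      exact hρ.not_isUnit (hd ρ ⟨e, by rw [hd', he]; ring⟩)
    have h1 : ρ ∣ Y := by
      apply hρ.dvd_of_dvd_pow (n := 2)
      rw [hY, hd']
      exact (dvd_mul_right _ _).mul_right _
    obtain ⟨Y1, hY1⟩ := h1
    have h2 : ρ * Y1 ^ 2 = d' * (d ^ 2 * f ^ 4 + B * b ^ 4) := by
      apply mul_left_cancel₀ hρ.ne_zero
      have : ρ * (d' * (d ^ 2 * f ^ 4 + B * b ^ 4)) = Y ^ 2 := by rw [hY, hd']; ring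
      rw [this, hY1]
      ring
    have h3 : ρ ∣ b := by
      have h4 : ρ ∣ d' * (d ^ 2 * f ^ 4 + B * b ^ 4) := by rw [← h2]; exact dvd_mul_right _ _
      have h5 := (hρ.dvd_or_dvd h4).resolve_left hnd
      have h6 : ρ ∣ B * b ^ 4 := by
        have h7 : ρ ∣ d ^ 2 * f ^ 4 := by
          rw [hd']
          exact (dvd_pow (dvd_mul_right ρ d') (by norm_num)).mul_right _
        have h8 := dvd_sub h5 h7
        rwa [add_sub_cancel_left] at h8
      rcases hρ.dvd_or_dvd h6 with h7 | h7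
      · exact absurd h7 hρD
      · exact hρ.dvd_of_dvd_pow h7
    obtain ⟨b1, hb1⟩ := h3
    have hnf : ¬ ρ ∣ f := by
      intro h4
      exact hρ.not_isUnit (hcop.isUnit_of_dvd' h4 ⟨b1, hb1⟩)
    have h4 : Y1 ^ 2 = ρ * (d' * (d' ^ 2 * f ^ 4 + ρ ^ 2 * (B * b1 ^ 4))) := by
      apply mul_left_cancel₀ hρ.ne_zero
      rw [h2, hd', hb1]
      ring
    have h5 : ρ ∣ Y1 := hρ.dvd_of_dvd_pow (n := 2) (by rw [h4]; exact dvd_mul_right _ _)
    obtain ⟨Y2, hY2⟩ := h5
    have h6 : ρ ∣ d' * (d' ^ 2 * f ^ 4 + ρ ^ 2 * (B * b1 ^ 4)) := by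
      refine ⟨Y2 ^ 2, ?_⟩
      apply mul_left_cancel₀ hρ.ne_zero
      rw [← h4, hY2]
      ring
    have h7 := (hρ.dvd_or_dvd h6).resolve_left hnd
    have h8 : ρ ∣ d' ^ 2 * f ^ 4 := by
      have h9 : ρ ∣ ρ ^ 2 * (B * b1 ^ 4) := (dvd_pow_self ρ (by norm_num)).mul_right _
      have := dvd_sub h7 h9
      rwa [add_sub_cancel_right] at this
    rcases hρ.dvd_or_dvd h8 with h9 | h9
    · exact hnd (hρ.dvd_of_dvd_pow h9)
    · exact hnf (hρ.dvd_of_dvd_pow h9)
  have hprime' : ∀ ρ : ZI, Prime ρ → ρ ∣ d → ρ ∣ DD pr V := by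
    intro ρ hρ hρd
    rcases hρ.dvd_or_dvd (hprime ρ hρ hρd) with h0 | h0
    · exact absurd (isUnit_of_dvd_unit h0 (im1_unit.pow k)) hρ.not_isUnit
    rcases hρ.dvd_or_dvd h0 with h1 | h1
    · exact h1
    · rcases hT ρ hρ (hρ.dvd_of_dvd_pow h1) with h2 | h2
      · exact h2
      · exfalso
        obtain ⟨d', hd'⟩ := hρd
        have hnd : ¬ ρ ∣ d' := by
          rintro ⟨e, he⟩
          exact hρ.not_isUnit (hd ρ ⟨e, by rw [hd', he]; ring⟩)
        obtain ⟨n, G, hG, hnG⟩ := aniso hρ h2 (A := d * f ^ 2) (C := T * b ^ 2)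
          (mul_ne_zero hd0 (pow_ne_zero 2 hf0)) (mul_ne_zero hT0 (pow_ne_zero 2 hb0))
        have h3 : Y ^ 2 = ρ ^ (2 * n + 1) * (d' * G) := by
          have e1 : d * (d ^ 2 * f ^ 4 + B * b ^ 4) =
              d * ((d * f ^ 2) ^ 2 + im1 ^ k * DD pr V * (T * b ^ 2) ^ 2) := by rw [hB]; ring
          rw [hY, e1, hG, hd', pow_succ]
          ring
        obtain ⟨s, Y', h4, -⟩ := sq_pow hρ h3 (fun h => (hρ.dvd_or_dvd h).elim hnd hnG)
        omega
  -- the set of primes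
  set S := V.filter (fun i => pr i ∣ d) with hS
  have hSV : S ⊆ V := Finset.filter_subset _ _
  have hSd : DD pr S ∣ d := by
    unfold DD
    refine Finset.prod_dvd_of_coprime ?_ ?_
    · intro i _ j _ hij
      exact (hp.pp i).cop (hp.pp j) fun h => hij (hp.inj h)
    · intro i hi
      exact (Finset.mem_filter.1 hi).2
  obtain ⟨u, hu⟩ := hSd
  have huu : IsUnit u := by
    by_contra hnu
    have hu0 : u ≠ 0 := by
      rintro rfl
      exact hd0 (by rw [hu, mul_zero])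
    obtain ⟨ρ, hρ, hρu⟩ := WfDvdMonoid.exists_irreducible_factor hnu hu0
    have hρ' : Prime ρ := irreducible_iff_prime.1 hρ
    have h1 : ρ ∣ d := by rw [hu]; exact hρu.mul_left _
    have h2 := hprime' ρ hρ' h1
    unfold DD at h2
    obtain ⟨i, hi, hρi⟩ := (hρ'.dvd_finsetProd_iff _).1 h2
    have h3 : pr i ∣ ρ := by
      obtain ⟨c, hc⟩ := hρi
      rcases (hp.pp i).pr.irreducible.isUnit_or_isUnit hc with h4 | h4
      · exact absurd h4 hρ'.not_isUnit
      · obtain ⟨c', hc'⟩ := h4.exists_right_inv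
        exact ⟨c', by rw [hc, mul_assoc, hc', mul_one]⟩
    have h4 : i ∈ S := Finset.mem_filter.2 ⟨hi, h3.trans h1⟩
    have h5 : pr i * pr i ∣ d := by
      rw [hu]
      refine mul_dvd_mul ?_ (h3.trans hρu)
      unfold DD
      exact Finset.dvd_prod_of_mem _ h4
    exact (hp.pp i).pr.not_isUnit (hd _ h5)
  have hun : u.norm = 1 := by
    obtain ⟨e, rfl⟩ := huu
    exact unit_norm e
  have hDV : DD pr V = DD pr S * DD pr (V \ S) := by
    unfold DD
    rw [mul_comm]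
    exact (Finset.prod_sdiff hSV).symm
  have hP0 : DD pr S ≠ 0 := by
    rintro h
    exact hd0 (by rw [hu, h, zero_mul])
  have hPsq : Squarefree (DD pr S) := hd.squarefree_of_dvd ⟨u, hu⟩
  have e1 : Y ^ 2 = DD pr S ^ 2 * (u * (u ^ 2 * DD pr S * f ^ 4 + im1 ^ k * DD pr (V \ S) * T ^ 2 * b ^ 4)) := by
    rw [hY, hB, hDV, hu]; ring
  have h1 : DD pr S ∣ Y := by
    rw [← hPsq.dvd_pow_iff_dvd (n := 2) (by norm_num), e1]
    exact (dvd_pow_self _ (by norm_num)).mul_right _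
  obtain ⟨Y1, hY1⟩ := h1
  refine ⟨u, S, f, b, Y1, hun, hSV, hcop, hf0, hb0, ?_, ?_⟩
  · rw [hxd, hu, mul_comm u]
  · apply mul_left_cancel₀ (pow_ne_zero 2 hP0)
    rw [← e1, hY1]
    ring



variable [Fintype ι]

/-- the local conditions -/
theorem local_condX (hp : PF pr) (V : Finset ι) {T u w : ZI} {S : Finset ι} {f b Y : ZI} (hT : T ≠ 0)
    (hu : u.norm = 1) (hw : w.norm = 1) (hf : f ≠ 0) (hb : b ≠ 0)
    (hE : Y ^ 2 = u * (u ^ 2 * DD pr S * f ^ 4 + w * DD pr (V \ S) * T ^ 2 * b ^ 4)) {j : ι} (hj : j ∈ V) :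
    (j ∉ S → qr (pr j) u * qr (pr j) (DD pr S) = 1) ∧
    (j ∈ S → qr (pr j) (u * w) * qr (pr j) (DD pr (V \ S)) = 1) := by
  have hπ := hp.pp j
  have hP := hπ.pr
  have hdvd : ∀ T : Finset ι, j ∉ T → ¬ pr j ∣ DD pr T := by
    intro T hT h
    unfold DD at h
    obtain ⟨i, hi, hji⟩ := (hP.dvd_finsetProd_iff _).1 h
    exact not_dvd_of_ne hp (fun h' => hT (by rw [h']; exact hi)) hji
  have hnu : ¬ pr j ∣ u := not_dvd_unit hπ hu
  have hnw : ¬ pr j ∣ w := not_dvd_unit hπ hw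
  have hmul : ∀ T : Finset ι, j ∈ T → ∃ c, DD pr T = pr j * c ∧ ¬ pr j ∣ c := by
    intro T hT
    refine ⟨DD pr (T.erase j), ?_, hdvd _ (Finset.notMem_erase _ _)⟩
    unfold DD
    exact (Finset.mul_prod_erase _ pr hT).symm
  have hfac : ∀ z : ZI, z ≠ 0 → ∃ k z', z = pr j ^ k * z' ∧ ¬ pr j ∣ z' := by
    intro z hz
    obtain ⟨z', h1, h2⟩ := (FiniteMultiplicity.of_prime_left hP hz).exists_eq_pow_mul_and_not_dvd
    exact ⟨_, z', h1, h2⟩
  obtain ⟨k, f', hf1, hf2⟩ := hfac f hf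
  obtain ⟨l, b', hb1, hb2⟩ := hfac b hb
  obtain ⟨m, t, ht1, ht2⟩ := hfac T hT
  have nd : ∀ {x y : ZI}, ¬ pr j ∣ x → ¬ pr j ∣ y → ¬ pr j ∣ x * y := fun hx hy h =>
    (hP.dvd_or_dvd h).elim hx hy
  have ndp : ∀ {x : ZI} (n : ℕ), ¬ pr j ∣ x → ¬ pr j ∣ x ^ n := fun n hx h =>
    hx (hP.dvd_of_dvd_pow h)
  constructor
  · intro hjS
    have hnP := hdvd S hjS
    obtain ⟨c, hc, hnc⟩ := hmul (V \ S) (Finset.mem_sdiff.2 ⟨hj, hjS⟩)
    have h1 := lead_sq hπ (Y := Y) (a := 4 * k) (c := 1 + 2 * m + 4 * l)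
      (A := (u * DD pr S) * (u * f' ^ 2) ^ 2) (C := u * w * c * t ^ 2 * b' ^ 4) (by omega) (by omega)
      (by rw [hE, hc, hf1, hb1, ht1]; ring)
      (nd (nd hnu hnP) (ndp 2 (nd hnu (ndp 2 hf2))))
      (nd (nd (nd (nd hnu hnw) hnc) (ndp 2 ht2)) (ndp 4 hb2))
    rw [qr_mul hπ, qr_mul hπ, qr_sq' hπ (nd hnu (ndp 2 hf2)), mul_one] at h1
    exact h1
  · intro hjS
    have hnP := hdvd (V \ S) (fun h => (Finset.mem_sdiff.1 h).2 hjS)
    obtain ⟨c, hc, hnc⟩ := hmul S hjS
    have h1 := lead_sq hπ (Y := Y) (a := 2 * m + 4 * l) (c := 1 + 4 * k)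
      (A := (u * w * DD pr (V \ S)) * (t * b' ^ 2) ^ 2) (C := u ^ 3 * c * f' ^ 4) (by omega) (by omega)
      (by rw [hE, hc, hf1, hb1, ht1]; ring)
      (nd (nd (nd hnu hnw) hnP) (ndp 2 (nd ht2 (ndp 2 hb2))))
      (nd (nd (ndp 3 hnu) hnc) (ndp 4 hf2))
    rw [qr_mul hπ, qr_mul hπ, qr_sq' hπ (nd ht2 (ndp 2 hb2)), mul_one] at h1
    exact h1


end descent

/-! ### Parity -/

/-- congruent to one modulo two -/
def one2 (z : ZI) : Prop := z.re % 2 = 1 ∧ z.im % 2 = 0

/-- divisible by two -/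
def zer2 (z : ZI) : Prop := z.re % 2 = 0 ∧ z.im % 2 = 0

lemma sq_im (Y : ZI) : (Y ^ 2).im % 2 = 0 := by
  rw [pow_two, im_mul']
  have : Y.re * Y.im + Y.im * Y.re = 2 * (Y.re * Y.im) := by ring
  rw [this]
  omega

lemma one2_mul {a b : ZI} (hb : one2 b) : (a * b).im % 2 = a.im % 2 := by
  obtain ⟨h1, h2⟩ := hb
  obtain ⟨x, hx⟩ : ∃ x, b.re = 2 * x + 1 := ⟨b.re / 2, by omega⟩
  obtain ⟨y, hy⟩ : ∃ y, b.im = 2 * y := ⟨b.im / 2, by omega⟩
  rw [im_mul', hx, hy]
  have : a.re * (2 * y) + a.im * (2 * x + 1) = a.im + 2 * (a.re * y + a.im * x) := by ring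
  rw [this]
  omega

lemma one2_mul' {a b : ZI} (ha : one2 a) (hb : one2 b) : one2 (a * b) := by
  refine ⟨?_, by rw [one2_mul hb]; exact ha.2⟩
  obtain ⟨h1, h2⟩ := hb
  obtain ⟨x, hx⟩ : ∃ x, b.re = 2 * x + 1 := ⟨b.re / 2, by omega⟩
  obtain ⟨y, hy⟩ : ∃ y, b.im = 2 * y := ⟨b.im / 2, by omega⟩
  have h3 := ha.1
  rw [re_mul', hx, hy]
  have : a.re * (2 * x + 1) - a.im * (2 * y) = a.re + 2 * (a.re * x - a.im * y) := by ring
  rw [this]
  omega

lemma zer2_mul {a b : ZI} (hb : zer2 b) : (a * b).im % 2 = 0 := by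
  obtain ⟨h1, h2⟩ := hb
  obtain ⟨x, hx⟩ : ∃ x, b.re = 2 * x := ⟨b.re / 2, by omega⟩
  obtain ⟨y, hy⟩ : ∃ y, b.im = 2 * y := ⟨b.im / 2, by omega⟩
  rw [im_mul', hx, hy]
  have : a.re * (2 * y) + a.im * (2 * x) = 2 * (a.re * y + a.im * x) := by ring
  rw [this]
  omega

/-- odd elements -/
def odd (z : ZI) : Prop := (z.re + z.im) % 2 = 1

lemma sq_odd {z : ZI} (h : odd z) : one2 (z ^ 2) := by
  refine ⟨?_, sq_im z⟩
  unfold odd at h
  rw [pow_two, re_mul']
  rcases Int.emod_two_eq_zero_or_one z.re with h1 | h1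
  · obtain ⟨a, ha⟩ : ∃ a, z.re = 2 * a := ⟨z.re / 2, by omega⟩
    obtain ⟨b, hb⟩ : ∃ b, z.im = 2 * b + 1 := ⟨z.im / 2, by omega⟩
    rw [ha, hb]
    have : 2 * a * (2 * a) - (2 * b + 1) * (2 * b + 1) = 2 * (2 * a * a - 2 * b * b - 2 * b - 1) + 1 := by
      ring
    rw [this]
    omega
  · obtain ⟨a, ha⟩ : ∃ a, z.re = 2 * a + 1 := ⟨z.re / 2, by omega⟩
    obtain ⟨b, hb⟩ : ∃ b, z.im = 2 * b := ⟨z.im / 2, by omega⟩
    rw [ha, hb]
    have : (2 * a + 1) * (2 * a + 1) - 2 * b * (2 * b) = 2 * (2 * a * a + 2 * a - 2 * b * b) + 1 := by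
      ring
    rw [this]
    omega

lemma sq_even {z : ZI} (h : ¬ odd z) : zer2 (z ^ 2) := by
  refine ⟨?_, sq_im z⟩
  unfold odd at h
  rw [pow_two, re_mul']
  obtain ⟨a, ha⟩ : ∃ a, z.re = 2 * a - z.im := ⟨(z.re + z.im) / 2, by omega⟩
  rw [ha]
  have : (2 * a - z.im) * (2 * a - z.im) - z.im * z.im = 2 * (2 * a * a - 2 * a * z.im) := by
    ring
  rw [this]
  omega

lemma even_mul {a b : ZI} (h : ¬ odd b) : ((a * b).re + (a * b).im) % 2 = 0 := by
  unfold odd at h
  obtain ⟨x, hx⟩ : ∃ x, b.re = 2 * x - b.im := ⟨(b.re + b.im) / 2, by omega⟩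
  rw [re_mul', im_mul', hx]
  have : a.re * (2 * x - b.im) - a.im * b.im + (a.re * b.im + a.im * (2 * x - b.im)) =
    2 * (a.re * x + a.im * x - a.im * b.im) := by ring
  rw [this]
  omega

lemma prim_one2 {z : ZI} (h : prim z) : one2 z := by
  obtain ⟨h1, h2⟩ := h
  exact ⟨by omega, h1⟩

/-- at least one of two coprime elements is odd -/
lemma cop_odd {f b : ZI} (h : IsCoprime f b) : odd f ∨ odd b := by
  by_contra hc
  rw [not_or] at hc
  obtain ⟨x, y, hxy⟩ := h
  have h1 := even_mul (a := x) hc.1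
  have h2 := even_mul (a := y) hc.2
  have h3 := congrArg Zsqrtd.re hxy
  have h4 := congrArg Zsqrtd.im hxy
  rw [Zsqrtd.re_add, Zsqrtd.re_one] at h3
  rw [Zsqrtd.im_add, Zsqrtd.im_one] at h4
  omega

lemma odd_of_not_dvd {z : ZI} (h : ¬ pi1 ∣ z) : odd z := by
  have h1 := (norm_odd_iff z).2 h
  unfold odd
  rw [norm_def'] at h1
  rcases Int.emod_two_eq_zero_or_one z.re with h2 | h2 <;>
    rcases Int.emod_two_eq_zero_or_one z.im with h3 | h3
  · exfalso
    obtain ⟨a, ha⟩ : ∃ a, z.re = 2 * a := ⟨z.re / 2, by omega⟩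
    obtain ⟨b, hb⟩ : ∃ b, z.im = 2 * b := ⟨z.im / 2, by omega⟩
    rw [ha, hb] at h1
    have : (2 * a) ^ 2 + (2 * b) ^ 2 = 2 * (2 * a ^ 2 + 2 * b ^ 2) := by ring
    rw [this] at h1
    omega
  · omega
  · omega
  · exfalso
    obtain ⟨a, ha⟩ : ∃ a, z.re = 2 * a + 1 := ⟨z.re / 2, by omega⟩
    obtain ⟨b, hb⟩ : ∃ b, z.im = 2 * b + 1 := ⟨z.im / 2, by omega⟩
    rw [ha, hb] at h1
    have : (2 * a + 1) ^ 2 + (2 * b + 1) ^ 2 = 2 * (2 * a ^ 2 + 2 * a + 2 * b ^ 2 + 2 * b + 1) := by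
      ring
    rw [this] at h1
    omega

lemma im1_pow_odd {k : ℕ} (hk : k % 2 = 1) : (im1 : ZI) ^ k = im1 ∨ (im1 : ZI) ^ k = -im1 := by
  obtain ⟨n, hn⟩ : ∃ n, k = 2 * n + 1 := ⟨k / 2, by omega⟩
  have h2 : (im1 : ZI) ^ 2 = -1 := by decide
  rw [hn, pow_succ, pow_mul, h2]
  rcases neg_one_pow_eq_or ZI n with h | h <;> rw [h]
  · left; ring
  · right; ring

theorem t_SQX : Pool.Agent.L7h3.QX.S_SQX := by
  intro F _ _ _ ι _ _ pr hp V k hk hker T hT0 hT x y hy hxy
  obtain ⟨u, S, f, b, Y, hu, hSV, hcop, hf0, hb0, hx, hE⟩ := decompX hp V k hT0 hT hy hxy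
  have hw := im1_pow_odd hk
  have hwn : (im1 ^ k : ZI).norm = 1 := by
    rcases hw with h | h <;> rw [h] <;> decide
  have hw1 : ue (im1 ^ k : ZI) = 1 := by
    unfold ue
    rcases hw with h | h <;> rw [h, if_neg (by decide)]
  have hT1 : odd T := by
    apply odd_of_not_dvd
    intro h
    rcases hT pi1 pi1_prime h with h1 | h1
    · exact pi1_prim (DD_prim hp V) h1
    · apply h1 1
      by_contra h2
      have h3 := (norm_odd_iff _).2 h2
      have h4 := prim_one2 (DD_prim hp V)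
      have h5 : one2 (DD pr V) := h4
      obtain ⟨a, ha⟩ : ∃ a, (DD pr V).re = 2 * a + 1 := ⟨(DD pr V).re / 2, by have := h5.1; omega⟩
      obtain ⟨c, hc⟩ : ∃ c, (DD pr V).im = 2 * c := ⟨(DD pr V).im / 2, by have := h5.2; omega⟩
      rw [norm_def'] at h3
      rcases hw with h | h
      · have e1 : ((1 : ZI) ^ 2 - im1 ^ k * DD pr V).re = 1 + 2 * c := by
          rw [h, Zsqrtd.re_sub, re_mul', one_pow, Zsqrtd.re_one, ha, hc]
          simp only [im1]
          ring
        have e2 : ((1 : ZI) ^ 2 - im1 ^ k * DD pr V).im = - (2 * a + 1) := by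
          rw [h, Zsqrtd.im_sub, im_mul', one_pow, Zsqrtd.im_one, ha, hc]
          simp only [im1]
          ring
        rw [e1, e2] at h3
        have : (1 + 2 * c) ^ 2 + (-(2 * a + 1)) ^ 2 = 2 * (2 * a ^ 2 + 2 * a + 2 * c ^ 2 + 2 * c + 1) := by
          ring
        rw [this] at h3
        omega
      · have e1 : ((1 : ZI) ^ 2 - im1 ^ k * DD pr V).re = 1 - 2 * c := by
          rw [h, Zsqrtd.re_sub, re_mul', one_pow, Zsqrtd.re_one, ha, hc]
          simp only [im1, Zsqrtd.re_neg, Zsqrtd.im_neg]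
          ring
        have e2 : ((1 : ZI) ^ 2 - im1 ^ k * DD pr V).im = (2 * a + 1) := by
          rw [h, Zsqrtd.im_sub, im_mul', one_pow, Zsqrtd.im_one, ha, hc]
          simp only [im1, Zsqrtd.re_neg, Zsqrtd.im_neg]
          ring
        rw [e1, e2] at h3
        have : (1 - 2 * c) ^ 2 + (2 * a + 1) ^ 2 = 2 * (2 * a ^ 2 + 2 * a + 2 * c ^ 2 - 2 * c + 1) := by
          ring
        rw [this] at h3
        omega
  have hE' : Y ^ 2 = u ^ 3 * (DD pr S * (f ^ 2) ^ 2) + u * im1 ^ k * (DD pr (V \ S) * (T ^ 2 * (b ^ 2) ^ 2)) := by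
    rw [hE]; ring
  have hY := sq_im Y
  rw [hE', Zsqrtd.im_add] at hY
  have hPS := prim_one2 (DD_prim hp S)
  have hPC := prim_one2 (DD_prim hp (V \ S))
  -- the parities
  have hfo : odd f → (u ^ 3 * (DD pr S * (f ^ 2) ^ 2)).im % 2 = (u ^ 3).im % 2 := fun hf =>
    one2_mul (one2_mul' hPS (by rw [pow_two]; exact one2_mul' (sq_odd hf) (sq_odd hf)))
  have hfe : ¬ odd f → (u ^ 3 * (DD pr S * (f ^ 2) ^ 2)).im % 2 = 0 := fun hf => by
    have e1 : u ^ 3 * (DD pr S * (f ^ 2) ^ 2) = u ^ 3 * (DD pr S * f ^ 2) * f ^ 2 := by ring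
    rw [e1]
    exact zer2_mul (sq_even hf)
  have hbo : odd b → (u * im1 ^ k * (DD pr (V \ S) * (T ^ 2 * (b ^ 2) ^ 2))).im % 2 = (u * im1 ^ k).im % 2 :=
    fun hb => one2_mul (one2_mul' hPC (one2_mul' (sq_odd hT1)
      (by rw [pow_two]; exact one2_mul' (sq_odd hb) (sq_odd hb))))
  have hbe : ¬ odd b → (u * im1 ^ k * (DD pr (V \ S) * (T ^ 2 * (b ^ 2) ^ 2))).im % 2 = 0 := fun hb => by
    have e1 : u * im1 ^ k * (DD pr (V \ S) * (T ^ 2 * (b ^ 2) ^ 2)) =
      u * im1 ^ k * (DD pr (V \ S) * (T ^ 2 * b ^ 2)) * b ^ 2 := by ring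
    rw [e1]
    exact zer2_mul (sq_even hb)
  -- the symbols
  have hsum : ∀ a b : ZMod 2, a + b = 0 → b = a := by decide
  have h11 : (1 : ZMod 2) + 1 = 0 := by decide
  have hdj : ∀ z : ι → ZMod 2, ∀ v, ∑ i ∈ V, em pr i v * (z i + z v) =
      ∑ i ∈ V \ S, em pr i v * (z i + z v) + ∑ i ∈ S, em pr i v * (z i + z v) := fun z v =>
    (Finset.sum_sdiff hSV).symm
  -- cases
  have hunit : (u = 1 ∨ u = -1) ∨ (u = im1 ∨ u = -im1) := by
    rcases unit_cases hu with h | h | h | h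
    · exact Or.inl (Or.inl h)
    · exact Or.inr (Or.inl h)
    · refine Or.inl (Or.inr ?_)
      rw [h]
      decide
    · refine Or.inr (Or.inr ?_)
      rw [h]
      decide
  have hA0 : (u = 1 ∨ u = -1) → (u ^ 3).im % 2 = 0 ∧ (u * im1 ^ k).im % 2 = 1 ∧ ue u = 0 ∧
      ue (u * im1 ^ k) = 1 ∧ ∃ u0 : ZI, u = u0 ^ 2 := by
    rintro (h | h)
    · refine ⟨?_, ?_, ?_, ?_, 1, by rw [h]; ring⟩
      · rw [h]; decide
      · rcases hw with h' | h' <;> rw [h, h'] <;> decide
      · unfold ue; rw [h, if_pos (by decide)]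
      · unfold ue; rcases hw with h' | h' <;> rw [h, h', if_neg (by decide)]
    · refine ⟨?_, ?_, ?_, ?_, im1, by rw [h]; decide⟩
      · rw [h]; decide
      · rcases hw with h' | h' <;> rw [h, h'] <;> decide
      · unfold ue; rw [h, if_pos (by decide)]
      · unfold ue; rcases hw with h' | h' <;> rw [h, h', if_neg (by decide)]
  have hA1 : (u = im1 ∨ u = -im1) → (u ^ 3).im % 2 = 1 ∧ (u * im1 ^ k).im % 2 = 0 ∧ ue u = 1 ∧
      ue (u * im1 ^ k) = 0 ∧ ∃ u0 : ZI, u = im1 ^ k * u0 ^ 2 := by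
    rintro (h | h)
    · refine ⟨?_, ?_, ?_, ?_, ?_⟩
      · rw [h]; decide
      · rcases hw with h' | h' <;> rw [h, h'] <;> decide
      · unfold ue; rw [h, if_neg (by decide)]
      · unfold ue; rcases hw with h' | h' <;> rw [h, h', if_pos (by decide)]
      · rcases hw with h' | h'
        · exact ⟨1, by rw [h, h']; ring⟩
        · exact ⟨im1, by rw [h, h']; decide⟩
    · refine ⟨?_, ?_, ?_, ?_, ?_⟩
      · rw [h]; decide
      · rcases hw with h' | h' <;> rw [h, h'] <;> decide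
      · unfold ue; rw [h, if_neg (by decide)]
      · unfold ue; rcases hw with h' | h' <;> rw [h, h', if_pos (by decide)]
      · rcases hw with h' | h'
        · exact ⟨im1, by rw [h, h']; decide⟩
        · exact ⟨1, by rw [h, h']; ring⟩
  have huw : (u * im1 ^ k).norm = 1 := by rw [Zsqrtd.norm_mul, hu, hwn, mul_one]
  by_cases hf : odd f
  · by_cases hb : odd b
    · exfalso
      have h1 := hfo hf
      have h2 := hbo hb
      rcases hunit with h | h
      · obtain ⟨h3, h4, -⟩ := hA0 h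
        omega
      · obtain ⟨h3, h4, -⟩ := hA1 h
        omega
    · -- `u = ± 1`
      have h1 := hfo hf
      have h2 := hbe hb
      rcases hunit with h | h
      · obtain ⟨-, -, h5, h6, u0, hu0⟩ := hA0 h
        set z : ι → ZMod 2 := fun i => if i ∈ S then 1 else 0 with hz
        have hz0 := hker z fun v hv => by
          obtain ⟨l1, l2⟩ := local_condX hp V hT0 hu hwn hf0 hb0 hE hv
          rw [hdj]
          by_cases hvS : v ∈ S
          · have h3 := l2 hvS
            rw [qr_unit_sg hp v huw, qr_DD_sg hp (V \ S) (fun h => (Finset.mem_sdiff.1 h).2 hvS),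
              ← sg_add, h6, one_mul] at h3
            have h4 := hsum _ _ (sg_eq_one h3)
            have e1 : ∑ i ∈ S, em pr i v * (z i + z v) = 0 := by
              refine Finset.sum_eq_zero fun i hi => ?_
              rw [hz]
              simp only [if_pos hi, if_pos hvS]
              rw [h11, mul_zero]
            have e2 : ∑ i ∈ V \ S, em pr i v * (z i + z v) = ∑ i ∈ V \ S, em pr i v := by
              refine Finset.sum_congr rfl fun i hi => ?_
              rw [hz]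
              simp only [if_neg (Finset.mem_sdiff.1 hi).2, if_pos hvS, zero_add, mul_one]
            have e3 : z v = 1 := by rw [hz]; simp only [if_pos hvS]
            rw [e1, e2, e3, mul_one, add_zero, h4]
            rw [← two_mul, (by decide : (2 : ZMod 2) = 0), zero_mul]
          · have h3 := l1 hvS
            rw [qr_unit_sg hp v hu, qr_DD_sg hp S hvS, ← sg_add, h5, zero_mul, zero_add] at h3
            have h4 := sg_eq_one h3
            have e1 : ∑ i ∈ V \ S, em pr i v * (z i + z v) = 0 := by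
              refine Finset.sum_eq_zero fun i hi => ?_
              rw [hz]
              simp only [if_neg (Finset.mem_sdiff.1 hi).2, if_neg hvS, zero_add, mul_zero]
            have e2 : ∑ i ∈ S, em pr i v * (z i + z v) = ∑ i ∈ S, em pr i v := by
              refine Finset.sum_congr rfl fun i hi => ?_
              rw [hz]
              simp only [if_pos hi, if_neg hvS, add_zero, mul_one]
            have e3 : z v = 0 := by rw [hz]; simp only [if_neg hvS]
            rw [e1, e2, e3, h4, mul_zero, add_zero, add_zero]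
        have hS : S = ∅ := by
          apply Finset.eq_empty_of_forall_notMem
          intro i hi
          have h3 := hz0 i (hSV hi)
          rw [hz] at h3
          simp only [if_pos hi] at h3
          exact absurd h3 (by decide)
        refine ⟨algebraMap ZI F u0 * (algebraMap ZI F f / algebraMap ZI F b), Or.inl ?_⟩
        rw [hx, hS, hu0]
        unfold DD
        rw [Finset.prod_empty, mul_one, map_pow]
        ring
      · exfalso
        obtain ⟨h3, h4, -⟩ := hA1 h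
        omega
  · -- `u = ± im1`
    have hb : odd b := (cop_odd hcop).resolve_left hf
    have h1 := hfe hf
    have h2 := hbo hb
    rcases hunit with h | h
    · exfalso
      obtain ⟨h3, h4, -⟩ := hA0 h
      omega
    · obtain ⟨-, -, h5, h6, u0, hu0⟩ := hA1 h
      set z : ι → ZMod 2 := fun i => if i ∈ S then 0 else 1 with hz
      have hz0 := hker z fun v hv => by
        obtain ⟨l1, l2⟩ := local_condX hp V hT0 hu hwn hf0 hb0 hE hv
        rw [hdj]
        by_cases hvS : v ∈ S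
        · have h3 := l2 hvS
          rw [qr_unit_sg hp v huw, qr_DD_sg hp (V \ S) (fun h => (Finset.mem_sdiff.1 h).2 hvS),
            ← sg_add, h6, zero_mul, zero_add] at h3
          have h4 := sg_eq_one h3
          have e1 : ∑ i ∈ S, em pr i v * (z i + z v) = 0 := by
            refine Finset.sum_eq_zero fun i hi => ?_
            rw [hz]
            simp only [if_pos hi, if_pos hvS, add_zero, mul_zero]
          have e2 : ∑ i ∈ V \ S, em pr i v * (z i + z v) = ∑ i ∈ V \ S, em pr i v := by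
            refine Finset.sum_congr rfl fun i hi => ?_
            rw [hz]
            simp only [if_neg (Finset.mem_sdiff.1 hi).2, if_pos hvS, add_zero, mul_one]
          have e3 : z v = 0 := by rw [hz]; simp only [if_pos hvS]
          rw [e1, e2, e3, h4, mul_zero, add_zero, add_zero]
        · have h3 := l1 hvS
          rw [qr_unit_sg hp v hu, qr_DD_sg hp S hvS, ← sg_add, h5, one_mul] at h3
          have h4 := hsum _ _ (sg_eq_one h3)
          have e1 : ∑ i ∈ V \ S, em pr i v * (z i + z v) = 0 := by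
            refine Finset.sum_eq_zero fun i hi => ?_
            rw [hz]
            simp only [if_neg (Finset.mem_sdiff.1 hi).2, if_neg hvS]
            rw [h11, mul_zero]
          have e2 : ∑ i ∈ S, em pr i v * (z i + z v) = ∑ i ∈ S, em pr i v := by
            refine Finset.sum_congr rfl fun i hi => ?_
            rw [hz]
            simp only [if_pos hi, if_neg hvS, zero_add, mul_one]
          have e3 : z v = 1 := by rw [hz]; simp only [if_neg hvS]
          rw [e1, e2, e3, mul_one, zero_add, h4]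
          rw [← two_mul, (by decide : (2 : ZMod 2) = 0), zero_mul]
      have hS : S = V := by
        apply Finset.Subset.antisymm hSV
        intro i hi
        by_contra hiS
        have h3 := hz0 i hi
        rw [hz] at h3
        simp only [if_neg hiS] at h3
        exact absurd h3 (by decide)
      have hAT := A_ne (F := F) hT0
      have hAb := A_ne (F := F) hb0
      refine ⟨algebraMap ZI F u0 * (algebraMap ZI F f / algebraMap ZI F b) / algebraMap ZI F T, Or.inr ?_⟩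
      rw [hx, hS, hu0]
      simp only [map_mul, map_pow]
      field_simp

end Pool.Agent.L7h65.QX
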